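import Pool.Agent.SYS.CE.Defs

/-!
# SYSS-CE-Br: runs of a block with the triangulation

PLAN.  `br_snoc`: induction on the word, `b` is the same function in all steps.  `br_sub`, `br_con`, `br_typ`, `br_vv`: induction on the
word with `st_sub`, `st_con` (UP/RchC), `st_typ` and `typ_repl` (Lib), `CO.vv_st`.  `rev_gate`: `T`-step: `face_R`, the value
of `a` at the gate is `t0`; `L`, `R`: the glued region sends the gate to `y`, then `DiscFill` is `Sub` (`CO.rev_mono`).
-/

namespace SYS.CE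

open Classical SST SYS.CH SYS.Part

section
variable {D : Type} [Finite D] {b : Part D → Option D} {X Y : Part D} {x z : D} {w : List Stp}

theorem br_snoc (h : BR b X x w Y z) {d : D} (hd : b Y = some d) (hB : d ∈ Y.B) (hs : Y.s.SameCycle z d) {s : Stp}
    {Y₁ : Part D} {z₁ : D} (hst : Y.St d s Y₁ z₁) : BR b X x (w ++ [s]) Y₁ z₁ := by
  induction w generalizing X x with
  | nil =>
    obtain ⟨rfl, rfl⟩ := h
    exact ⟨d, Y₁, z₁, hd, hB, hs, hst, rfl, rfl⟩
  | cons t w ih =>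
    obtain ⟨e, X₁, x₁, h1, h2, h3, h4, h5⟩ := h
    exact ⟨e, X₁, x₁, h1, h2, h3, h4, ih h5⟩

theorem br_sub (h : BR b X x w Y z) : X.Sub Y := by
  induction w generalizing X x with
  | nil =>
    obtain ⟨rfl, rfl⟩ := h
    exact sub_refl _
  | cons t w ih =>
    obtain ⟨e, X₁, x₁, h1, h2, h3, h4, h5⟩ := h
    exact sub_trans (st_sub h4).1 (ih h5)

theorem br_con (h : BR b X x w Y z) (hX : X.Con) : Y.Con := by
  induction w generalizing X x with
  | nil =>
    obtain ⟨rfl, rfl⟩ := h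
    exact hX
  | cons t w ih =>
    obtain ⟨e, X₁, x₁, h1, h2, h3, h4, h5⟩ := h
    exact ih h5 (UP.st_con h4 hX)

theorem br_mem (h : BR b X x w Y z) (hx : x ∈ X.B) : z ∈ Y.B := by
  induction w generalizing X x with
  | nil =>
    obtain ⟨rfl, rfl⟩ := h
    exact hx
  | cons t w ih =>
    obtain ⟨e, X₁, x₁, h1, h2, h3, h4, h5⟩ := h
    exact ih h5 (st_sub h4).2.2

theorem br_typ {l : List D} {p : ℕ} {P : List ℕ} {F κ : ℕ} (hX : X.Typ (x :: l) (p :: P) F κ) (h : BR b X x w Y z) :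
    ∃ p' F', Y.Typ (z :: l) (p' :: P) F' κ := by
  induction w generalizing X x p F with
  | nil =>
    obtain ⟨rfl, rfl⟩ := h
    exact ⟨p, F, hX⟩
  | cons t w ih =>
    obtain ⟨e, X₁, x₁, h1, h2, h3, h4, h5⟩ := h
    obtain ⟨-, F', -, hT⟩ := st_typ (typ_repl hX h2 h3) h4
    exact ih hT h5

private theorem rg_glue {x y : D} (hx : x ∈ X.B) (hy : y ∈ X.B) (hxy : x ≠ y) : x ∈ CO.rev (X.glue x y hx hy) := by
  show (X.a * Equiv.swap x y) x ≠ x
  rw [Equiv.Perm.mul_apply, Equiv.swap_apply_left, hy.2]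
  exact hxy.symm

private theorem rg_fill {G S' : Part D} {u : List D} {a : ℕ} (h : G.DiscFill S' u a) : G.Sub S' := by
  rcases h with ⟨_, _, rfl⟩ | ⟨_, V, _, h⟩
  · exact sub_refl _
  · exact h.sub

theorem rev_gate {s : Stp} {X₁ : Part D} {z₁ : D} (h : X.St x s X₁ z₁) : x ∈ CO.rev X₁ := by
  cases s with
  | T =>
    obtain ⟨t0, t1, t2, hx, h0, h1, h2, h01, h12, h20, rfl, _⟩ := h
    show (X.a * Equiv.swap x t0) x ≠ x
    have h3 : X.f t0 = t0 := not_not.1 h0
    rw [Equiv.Perm.mul_apply, Equiv.swap_apply_left, X.af _ h3]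
    rintro rfl
    exact h0 hx.1
  | L k a =>
    obtain ⟨y, u, v, w, hx, hy, hw, _, _, hD⟩ := h
    have hnd := hw_nodup X hx
    rw [hw] at hnd
    have hxy : x ≠ y := by
      rintro rfl
      exact (List.nodup_cons.1 hnd).1 (by simp)
    exact CO.rev_mono (rg_fill hD) (rg_glue hx hy hxy)
  | R k a =>
    obtain ⟨y, u, v, w, hx, hy, hw, _, _, hD⟩ := h
    have hnd := hw_nodup X hx
    rw [hw] at hnd
    have hxy : x ≠ y := by
      rintro rfl
      exact (List.nodup_cons.1 hnd).1 (by simp)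
    exact CO.rev_mono (rg_fill hD) (rg_glue hx hy hxy)

theorem br_gate {f : D} (hf : b X = some f) (hn : b Y = none) (h : BR b X x w Y z) : f ∈ CO.rev Y := by
  cases w with
  | nil =>
    obtain ⟨rfl, rfl⟩ := h
    rw [hf] at hn
    exact absurd hn (by simp)
  | cons t w =>
    obtain ⟨e, X₁, x₁, h1, h2, h3, h4, h5⟩ := h
    rw [hf] at h1
    obtain rfl := Option.some.inj h1
    exact CO.rev_mono (br_sub h5) (rev_gate h4)

theorem br_vv {T : Tri D} (hT : T.Conn) (h : BR b X x w Y z) (hX : X.Con) (hL : Y.Le T) :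
    CO.VV T (CO.rev Y) = CO.VV T (CO.rev X) := by
  induction w generalizing X x with
  | nil =>
    obtain ⟨rfl, rfl⟩ := h
    rfl
  | cons t w ih =>
    obtain ⟨e, X₁, x₁, h1, h2, h3, h4, h5⟩ := h
    rw [ih h5 (UP.st_con h4 hX), CO.vv_st hT h4 hX (sub_le (br_sub h5) hL)]

end

end SYS.CE
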