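import Pool.Agent.SYS.CE.Low
import Pool.Agent.SYS.BK.AltB
import Pool.Agent.SYS.BK.Pgi

/-!
# SYSS-CE-Bri: the block with two sizes

`bk2 p₀ P P'`: the block with the parameters `P` at holes of perimeter at least `p₀`, with the parameters `P'` at the other holes.
-/

namespace SYS.CE

open Classical SST SYS.CH SYS.Part

/-- The parameters at a hole of perimeter `p`. -/
def prm (p₀ : ℕ) (P P' : BK.Prm) (p : ℕ) : BK.Prm := if p₀ ≤ p then P else P'

/-- The block with two sizes. -/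
noncomputable def bk2 (p₀ : ℕ) (P P' : BK.Prm) : Blk where
  nxt := fun X f => BK.nxt (prm p₀ P P' (X.per f)) X f
  K := max P.K P'.K

theorem prm_ok {p₀ : ℕ} {P P' : BK.Prm} (h : P.Ok) (h' : P'.Ok) (p : ℕ) : (prm p₀ P P' p).Ok := by
  unfold prm
  split_ifs
  · exact h
  · exact h'

theorem prm_K (p₀ : ℕ) (P P' : BK.Prm) (p : ℕ) : (prm p₀ P P' p).K ≤ max P.K P'.K := by
  unfold prm
  split_ifs
  · exact le_max_left _ _
  · exact le_max_right _ _

theorem bk2_ok {p₀ : ℕ} {P P' : BK.Prm} (h : P.Ok) (h' : P'.Ok) : (bk2 p₀ P P').Ok := by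
  refine ⟨fun X f hf => BK.nxt_self hf, fun X f q d hf hq => ?_⟩
  exact lt_of_lt_of_le (BK.node_len (prm_ok h h' _) hf hq.1) (prm_K p₀ P P' (X.per f))

theorem bk2_in {p₀ : ℕ} {P P' : BK.Prm} (h : P.Ok) (h' : P'.Ok) :
    BIn (bk2 p₀ P P') (fun p => (prm p₀ P P' p).M) (fun p => (prm p₀ P P' p).q + 1) (fun p => (prm p₀ P P' p).A) := by
  refine ⟨fun X f w Y z d hf hr hn => ?_, fun T c F X f q _ _ _ _ hf hy hC hL _ => ?_⟩
  · obtain ⟨h1, h2, -⟩ := BK.node_gate hf hr hn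
    exact ⟨h1, h2⟩
  · have hs := br_sub hC.1
    exact BK.pg_done hf hs hL ((BK.nxt_done (prm_ok h h' _) hs).1 hC.2) hy

end SYS.CE
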