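import Pool.Agent.SYS.CE.Fact

/-!
# SYSS-CE-Chain: existence of chains of blocks

PLAN.  `gl_iff`: `2 - τ ≤ c ↔ 2 ≤ c + τ`.  `rg_sc`: `CO.con_lk`, `CO.rev_a`, `mem_rev`; `XP.Fs` of `X.R`: `Le` and `mem_R_f` (see the proof of
`CO.con_lk`); `X.B` is not empty (`sc_ne`), `B_sub_R`.  `pl_nn`: all terms of `PG.val` are nonnegative.
`chain`: induction on `J`; `J = 0` contradicts the last hypothesis (`0 ≤ v`, `0 < δ`).  Let `J = J' + 1`.  `PG.step` (with `rk_sc`: `rk T (rev X) = c`, and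
`gl_iff`) gives the gate `f ∈ Ex`, `f ∈ X.R`, `f ∉ rev X`, so `f ∈ X.B` (`CO.mem_rev`).  `run_ex` for the block at `X`, `f`.
* `TE`: `Ch.fin`, progress `0`.
* `NE`, `c = 0`, end `X'` (`ne_fact`): if `Gl m 1 X'`: `Ch.nsg`.  Otherwise `PG.special` gives `St .. univ (v + a)`; induction hypothesis for `c = 1` and the same
  `s` (the number of targets outside `X'.R` is not larger, `Sub.R_sub`); `Ch.ns` with the gate of the induction hypothesis.
  Arithmetic: `(v + a) + s (a + δ) ≤ δ (J' - 1)` because `(s + 1) (a + δ) = s (a + δ) + a + δ` and `δ (J' + 1 - 1) - δ = δ (J' - 1)`.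
* `PE`, end `X'` (`pe_fact`): apply the last part of `PG.step` with `M p, Q p, A p`, `p = X.per f`, `Y' = X'.R`, `E' = rev X'` (`BIn.inn` for `T.a f ∉ X.R`).
  If `Gl m c X'`: `Ch.plg`.  Otherwise, if there is a new target (and `Gl` fails): `s = s' + 1` (the number of targets outside `X'.R` is smaller: `Set.ncard_lt_ncard`);
  `PG.special`, induction hypothesis with `s'`, `Ch.jp`.  Otherwise `St` with the exits and the value `v - prg M Q p`: induction hypothesis, the gate `e` is an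
  exit: `e ∈ X'.B`, `e ∉ X.R`; `Ch.pl`; `prg M Q p ≥ δ`.
`T.Conn` from `T ∈ Trn n g`.  `(2 - τ + τ : ℕ) = 2`: rewrite it first.  `(Set.range m).ncard ≤ τ`: `Set.ncard_image_le` or `Set.ncard_range_le`.
-/

namespace SYS.CE

open Classical SST SYS.CH SYS.Part

section
variable {n g τ : ℕ} {B : Blk} {M Q A : ℕ → ℕ} {T : Tri (Fin (6 * n))} {m : Fin τ → Fin (6 * n)} {μ δ : ℝ}

theorem gl_iff (hτ : τ ≤ 2) {c : ℕ} {X : Part (Fin (6 * n))} : Gl m c X ↔ 2 - τ ≤ c ∧ ∀ x ∈ Set.range m, x ∈ X.R := by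
  unfold Gl
  rw [Set.forall_mem_range]
  constructor
  · rintro ⟨h1, h2⟩
    exact ⟨by omega, h2⟩
  · rintro ⟨h1, h2⟩
    exact ⟨by omega, h2⟩

theorem rg_sc {c F : ℕ} {X : Part (Fin (6 * n))} (h : Sc c X F) (hL : X.Le T) : PG.Rg T X.R (CO.rev X) := by
  have h0 : ∀ d ∈ X.R, T.f d ∈ X.R := by
    intro d hd
    rw [hL.1 d hd]
    exact (mem_R_f X d).2 hd
  refine ⟨fun d => ⟨fun hd => ?_, fun hd => h0 d hd⟩, CO.rev_a hL, fun d hd => (CO.mem_rev.1 hd).1,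
    (CO.con_lk hL).1 h.1, ?_⟩
  · have h1 := h0 _ (h0 _ hd)
    rw [T.fff] at h1
    exact h1
  · obtain ⟨f, hf⟩ := sc_ne h
    exact ⟨f, hf.1⟩

theorem pl_nn {N : ℕ} {t Y E : Set (Fin (6 * n))} {v : ℝ} (hμ : 0 < μ) (h : PG.PL T μ N t Y E v) : 0 ≤ v := by
  obtain ⟨H, Θ, -, hv⟩ := h
  refine le_trans ?_ hv
  unfold PG.val PG.Ph
  positivity

theorem range_card (m : Fin τ → Fin (6 * n)) : (Set.range m).ncard ≤ τ := by
  rw [← Set.image_univ]
  calc (m '' Set.univ).ncard ≤ (Set.univ : Set (Fin τ)).ncard := Set.ncard_image_le (Set.toFinite _)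
    _ = τ := by rw [Set.ncard_univ, Nat.card_fin]

theorem chain (hB : B.Ok) (hI : BIn B M Q A) (hT : T ∈ Trn n g) (hg : 1 ≤ g) (hτ : τ ≤ 2)
    (hp : ∀ p, PG.Pm μ 2 (M p) (Q p) (A p)) (hδ : 0 < δ) (hpr : ∀ p, δ ≤ prg M Q p) (J : ℕ) :
    ∀ (c s F : ℕ) (v : ℝ) (X : Part (Fin (6 * n))) (Ex : Set (Fin (6 * n))), c ≤ 1 → Sc c X F → X.Le T → X.HConn T →
      ¬ Gl m c X → PG.St T μ (2 - τ) (Set.range m) X.R (CO.rev X) Ex v → {i | m i ∉ X.R}.ncard ≤ s →
      v + (s + (1 - c)) * (16 * (Q 0 + 2) + δ) ≤ δ * (J - 1) →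
      ∃ f ∈ Ex, f ∈ X.B ∧ ∃ v', v' ≤ v + (s + (1 - c)) * (16 * (Q 0 + 2)) ∧ Ch B (prg M Q) m T J c s v' X f := by
  have hN : 2 - τ + τ = 2 := by omega
  have hp' : ∀ p, PG.Pm μ (2 - τ + τ) (M p) (Q p) (A p) := by
    intro p
    rw [hN]
    exact hp p
  have hμ := (hp 0).mu
  have hTc : T.Conn := hT.1
  set a : ℝ := 16 * (Q 0 + 2) with ha'
  have ha : 0 < a := by
    rw [ha']
    positivity
  have hsp : ∀ {X X' : Part (Fin (6 * n))} {c F c' F' : ℕ} {Ex : Set (Fin (6 * n))} {v : ℝ}, Sc c X F → X.Le T → Sc c' X' F' →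
      X'.Le T → X.Sub X' → PG.St T μ (2 - τ) (Set.range m) X.R (CO.rev X) Ex v →
      PG.St T μ (2 - τ) (Set.range m) X'.R (CO.rev X') Set.univ (v + a) := by
    intro X X' c F c' F' Ex v h1 h2 h3 h4 h5 h6
    have h7 := PG.special (rg_sc h1 h2) (rg_sc h3 h4) h5.R_sub (range_card m) (hp' 0) h6
    have h8 : 8 * ((2 - τ + τ : ℕ) : ℝ) * ((Q 0 : ℝ) + 2) = a := by
      rw [hN, ha']
      push_cast
      ring
    rw [h8] at h7
    exact h7
  induction J with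
  | zero =>
    intro c s F v X Ex hc hX hL hH hG hS hs hJ
    exfalso
    have h1 := pl_nn hμ hS.le
    have h2 : (0 : ℝ) ≤ (s + (1 - c)) * (a + δ) := by
      have h3 : (c : ℝ) ≤ 1 := by exact_mod_cast hc
      have h4 : (0 : ℝ) ≤ s := Nat.cast_nonneg s
      exact mul_nonneg (by linarith) (by linarith)
    rw [Nat.cast_zero] at hJ
    linarith
  | succ J ih =>
    intro c s F v X Ex hc hX hL hH hG hS hs hJ
    have hv := pl_nn hμ hS.le
    have hc1 : (c : ℝ) ≤ 1 := by exact_mod_cast hc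
    have hs0 : (0 : ℝ) ≤ s := Nat.cast_nonneg s
    have hJ' : v + (s + (1 - c)) * (a + δ) ≤ δ * J := by
      rw [Nat.cast_succ] at hJ
      linarith
    have hrk := rk_sc hTc hX hL hH
    obtain ⟨f, hfE, hfR, hfr, hstep⟩ := PG.step (rg_sc hX hL) (range_card m) hS (by
      rw [hrk, ← gl_iff hτ]
      exact hG)
    have hf : f ∈ X.B := by
      by_contra h
      exact hfr (CO.mem_rev.2 ⟨hfR, h⟩)
    refine ⟨f, hfE, hf, ?_⟩
    rcases run_ex hB hI hg hc hX hT hL hH hf with ⟨X', hPE⟩ | ⟨rfl, X', hNE⟩ | hTE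
    · obtain ⟨h1, h2, h3, ⟨F', h4⟩, h5, h6⟩ := pe_fact hB hTc hX hf hPE
      by_cases hg' : Gl m c X'
      · exact ⟨0, add_nonneg hv (mul_nonneg (by linarith) ha.le), Ch.plg hPE hg'⟩
      obtain ⟨h7, h8⟩ := hstep (hp' (X.per f)) X'.R (CO.rev X') (rg_sc h4 h2) h1.R_sub (CO.rev_mono h1) (le_of_eq h5) h6
        (fun hy => by
          obtain ⟨w, x', hC, hL', hH'⟩ := hPE
          exact hI.inn T c F X f (w, X', x') hTc hX hL hH hf hy hC hL' hH')
      have hsub : {i | m i ∉ X'.R} ⊆ {i | m i ∉ X.R} := fun i hi hi' => hi (h1.R_sub hi')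
      rcases h8 with ⟨x, ⟨i, rfl⟩, hx, hx'⟩ | h8
      · have hlt : {i | m i ∉ X'.R}.ncard < {i | m i ∉ X.R}.ncard :=
          Set.ncard_lt_ncard ⟨hsub, fun h => (h (show i ∈ {i | m i ∉ X.R} from hx)) hx'⟩ (Set.toFinite _)
        obtain ⟨s', rfl⟩ : ∃ s', s = s' + 1 := ⟨s - 1, by omega⟩
        obtain ⟨e, -, he, v', hv', hCh⟩ := ih c s' F' (v + a) X' Set.univ hc h4 h2 h3 hg' (hsp hX hL h4 h2 h1 hS) (by omega) (by
          push_cast at hJ' hs0 ⊢
          linarith)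
        refine ⟨v', ?_, Ch.jp hPE he hCh⟩
        push_cast
        linarith
      · have h9 : (M (X.per f) : ℝ) - 8 * ((2 - τ + τ : ℕ) : ℝ) * ((Q (X.per f) : ℝ) + 2) = prg M Q (X.per f) := by
          rw [hN]
          unfold prg
          push_cast
          ring
        rw [h9] at h8
        have h10 := hpr (X.per f)
        obtain ⟨e, hee, he, v', hv', hCh⟩ := ih c s F' _ X' _ hc h4 h2 h3 hg' h8
          (le_trans (Set.ncard_le_ncard hsub (Set.toFinite _)) hs) (by linarith)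
        refine ⟨prg M Q (X.per f) + v', by linarith, Ch.pl hPE he (fun h => hee.2.2 h.1) hCh⟩
    · obtain ⟨h1, h2, h3, F', h4⟩ := ne_fact hX hf hNE
      by_cases hg' : Gl m 1 X'
      · exact ⟨0, add_nonneg hv (mul_nonneg (by linarith) ha.le), Ch.nsg hNE hg'⟩
      have hsub : {i | m i ∉ X'.R} ⊆ {i | m i ∉ X.R} := fun i hi hi' => hi (h1.R_sub hi')
      obtain ⟨e, -, he, v', hv', hCh⟩ := ih 1 s F' (v + a) X' Set.univ le_rfl h4 h2 h3 hg' (hsp hX hL h4 h2 h1 hS)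
        (le_trans (Set.ncard_le_ncard hsub (Set.toFinite _)) hs) (by
          push_cast at hJ' ⊢
          linarith)
      refine ⟨v', ?_, Ch.ns hNE he hCh⟩
      push_cast at hv' ⊢
      linarith
    · exact ⟨0, add_nonneg hv (mul_nonneg (by linarith) ha.le), Ch.fin hTE⟩

end

end SYS.CE
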