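import Pool.Agent.SYS.CH.Defs
import Pool.Agent.SYS.CO.Pla
import Pool.Agent.SYS.PG.Main

/-!
# Project SYS (MP_650813_pr, S*), block CE: existence of chains (definitions).  DO NOT CHANGE.

`BIn B M Q A`: the deterministic facts on the block `B` which are used: every gate is a boundary dart of the hole of the run, and
at a planar end all edges of the inner faces (`PG.Inn`) are revealed; `M p, Q p, A p` = sizes of the block at a hole of perimeter `p`.
`prg M Q p`: progress of the block at a hole of perimeter `p` (rank + number of targets = 2).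
-/

namespace SYS.CE

open Classical SST SYS.CH

/-- The facts on the block. -/
structure BIn (B : Blk) (M Q A : ℕ → ℕ) : Prop where
  gate : ∀ {D : Type} [Finite D] (X : Part D) (f : D) (w : List Stp) (Y : Part D) (z d : D), f ∈ X.B →
    Part.BR (B.nxt X f) X f w Y z → B.nxt X f Y = some d → d ∈ Y.B ∧ Y.s.SameCycle z d
  inn : ∀ {n : ℕ} (T : Tri (Fin (6 * n))) (c F : ℕ) (X : Part (Fin (6 * n))) (f : Fin (6 * n))
    (q : List Stp × Part (Fin (6 * n)) × Fin (6 * n)), T.Conn → Sc c X F → X.Le T → X.HConn T → f ∈ X.B → T.a f ∉ X.R →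
    Cpl B X f q → q.2.1.Le T → q.2.1.HConn T →
    PG.Inn T X.Rᶜ (T.a f) (M (X.per f)) (Q (X.per f)) (A (X.per f)) ⊆ CO.rev q.2.1

/-- Progress of the block at a hole of perimeter `p`. -/
noncomputable def prg (M Q : ℕ → ℕ) (p : ℕ) : ℝ := M p - 16 * (Q p + 2)

end SYS.CE
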