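import Pool.Agent.SYS.CE.Run

/-!
# SYSS-CE-Fact: the region after a block

PLAN.  `pe_fact`: `br_sub`, `br_con`, `br_typ` (with `sc_typ`), `br_vv`, `br_gate` (`Blk.Ok.st`).  `ne_fact`: the node `Y` has
`Typ (y :: l) (p :: P) F' 0` (`br_typ`, `typ_repl`), the glued region has `Typ (z :: z' :: l) ..  1` (`typ_ns`; `u`, `v` are not empty), `Con` by
`con_glue`, `Le` by `glue_le`, `HConn` is part of `NSt`; `Sub`: `br_sub`, `glue_sub`.  `rk_sc`: `CO.rk_typ_one` with `sc_typ`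
(`X.B` is not empty: `l.length = c + 1`).
-/

namespace SYS.CE

open Classical SST SYS.CH SYS.Part

section
variable {D : Type} [Finite D] {B : Blk} {M Q A : ℕ → ℕ} {T : Tri D} {X X' : Part D} {f : D} {c F : ℕ}

theorem sc_ne (h : Sc c X F) : X.B.Nonempty := by
  obtain ⟨-, l, P, hT, hl⟩ := h
  cases l with
  | nil =>
    rw [List.length_nil] at hl
    omega
  | cons e l => exact ⟨e, hT.hl.1 e List.mem_cons_self⟩

theorem pe_fact (hB : B.Ok) (hT : T.Conn) (hS : Sc c X F) (hf : f ∈ X.B) (h : PE B T X f X') :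
    X.Sub X' ∧ X'.Le T ∧ X'.HConn T ∧ (∃ F', Sc c X' F') ∧ CO.VV T (CO.rev X') = CO.VV T (CO.rev X) ∧ f ∈ CO.rev X' := by
  obtain ⟨w, x', ⟨hr, hn⟩, hL, hH⟩ := h
  obtain ⟨l, P, hX, hl⟩ := sc_typ hS hf
  obtain ⟨p', F', hY⟩ := br_typ hX hr
  refine ⟨br_sub hr, hL, hH, ⟨F', br_con hr hS.1, x' :: l, p' :: P, hY, ?_⟩, br_vv hT hr hS.1 hL,
    br_gate (hB.st X f hf) hn hr⟩
  rw [List.length_cons, hl]

theorem ne_fact (hS : Sc 0 X F) (hf : f ∈ X.B) (h : NE B T X f X') :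
    X.Sub X' ∧ X'.Le T ∧ X'.HConn T ∧ ∃ F', Sc 1 X' F' := by
  obtain ⟨w, Y, z, y, ⟨hr, hn, h1, h2⟩, hL, hH, u, v, hx, hy, ⟨hu, hv, hw, hx', hy', hHc⟩, rfl⟩ := h
  obtain ⟨l, P, hX, hl⟩ := sc_typ hS hf
  obtain ⟨p', F', hY⟩ := br_typ hX hr
  have hY' := typ_repl hY h1 h2
  obtain ⟨z1, u1, rfl⟩ := List.exists_cons_of_ne_nil hu
  obtain ⟨z2, v1, rfl⟩ := List.exists_cons_of_ne_nil hv
  have hG := typ_ns hY' hx hy hw
  refine ⟨sub_trans (br_sub hr) (glue_sub Y hx hy), glue_le Y hx hy hL rfl, hHc, F', con_glue Y hx hy (br_con hr hS.1), _, _, hG, ?_⟩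
  rw [List.length_cons, List.length_cons, hl]

theorem rk_sc (hT : T.Conn) (hS : Sc c X F) (hL : X.Le T) (hH : X.HConn T) : CO.rk T (CO.rev X) = c := by
  obtain ⟨f, hf⟩ := sc_ne hS
  obtain ⟨l, P, hX, hl⟩ := sc_typ hS hf
  have h1 := CO.rk_typ_one hT hL hS.1 ⟨f, hf.1⟩ hH hX
  omega

end

end SYS.CE
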