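import Pool.Agent.SYS.CE.Chain

/-!
# SYSS-CE-Low: chains from a start region

PLAN of `dc_union`: `CO.dc_lk` for `Y`, `PG.Rg.con` for `X.R` (`CO.lk_mono` with `rev X ⊆ ins T (X.R ∪ Y)`), every dart of `X.R ∪ Y` is linked to a dart of `Y ∩ X.R`; `Fs` of the union.
-/

namespace SYS.CE

open Classical SST SYS.CH SYS.Part

theorem dc_union {D : Type} {T : Tri D} {X : Part D} {Y : Set D} (hR : PG.Rg T X.R (CO.rev X)) (hL : X.Le T) (hF : XP.Fs T Y)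
    (hD : XP.DC T Y) (hne : (Y ∩ X.R).Nonempty) : XP.DC T (X.R ∪ Y) := by
  have hFu : XP.Fs T (X.R ∪ Y) := by
    intro d
    constructor
    · rintro (h | h)
      · exact Or.inl ((hR.fs d).1 h)
      · exact Or.inr ((hF d).1 h)
    · rintro (h | h)
      · exact Or.inl ((hR.fs d).2 h)
      · exact Or.inr ((hF d).2 h)
  obtain ⟨b, hbY, hbR⟩ := hne
  have h1 : CO.rev X ⊆ CO.ins T (X.R ∪ Y) := (CO.rev_sub_ins hL).trans (CO.ins_mono T Set.subset_union_left)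
  have h2 : CO.ins T Y ⊆ CO.ins T (X.R ∪ Y) := CO.ins_mono T Set.subset_union_right
  have key : ∀ d ∈ X.R ∪ Y, CO.Lk T (CO.ins T (X.R ∪ Y)) d b := by
    rintro d (hd | hd)
    · exact CO.lk_mono h1 (hR.con d hd b hbR)
    · exact CO.lk_mono h2 ((CO.dc_lk hF).1 hD d hd b hbY)
  exact (CO.dc_lk hFu).2 fun d hd e he => CO.lk_trans (key d hd) (CO.lk_symm (key e he))

/-- Every connected set of faces `Y` of rank at least `2 - τ` which contains the targets and meets the region `X` gives a chain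
of blocks which starts at a boundary dart of `X`; its progress is at most `per Y + μ |Y| + 64 (Q 0 + 2)`. -/
theorem low {n g τ : ℕ} {B : Blk} {M Q A : ℕ → ℕ} {T : Tri (Fin (6 * n))} {m : Fin τ → Fin (6 * n)} {μ δ : ℝ}
    (hB : B.Ok) (hI : BIn B M Q A) (hT : T ∈ Trn n g) (hg : 1 ≤ g) (hτ : τ ≤ 2)
    (hp : ∀ p, PG.Pm μ 2 (M p) (Q p) (A p)) (hδ : 0 < δ) (hpr : ∀ p, δ ≤ prg M Q p) {J c F : ℕ} {X : Part (Fin (6 * n))} (hc : c ≤ 1)
    (hX : Sc c X F) (hL : X.Le T) (hH : X.HConn T) (hG : ¬ Gl m c X) {Y : Set (Fin (6 * n))} (hF : XP.Fs T Y) (hD : XP.DC T Y)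
    (hne : (Y ∩ X.R).Nonempty) (hm : ∀ i, m i ∈ Y) (hr : 2 - τ ≤ CO.rk T (CO.ins T Y))
    (hJ : (XP.bdy T Y).ncard + μ * (Y.ncard / 3) + 64 * (Q 0 + 2) + 3 * δ ≤ δ * (J - 1)) :
    ∃ f ∈ X.B, ∃ v, v ≤ (XP.bdy T Y).ncard + μ * (Y.ncard / 3) + 64 * (Q 0 + 2) ∧ Ch B (prg M Q) m T J c τ v X f := by
  have hN : 2 - τ + τ = 2 := by omega
  have hR := rg_sc hX hL
  have hdc := dc_union hR hL hF hD hne
  have hr' : 2 - τ ≤ CO.rk T (CO.ins T (X.R ∪ Y)) := le_trans hr (CO.rk_mono (CO.ins_mono T Set.subset_union_right))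
  have hS := PG.start hR hF hdc hr' (t := Set.range m) (τ := τ) (by
    rintro x ⟨i, rfl⟩
    exact Or.inr (hm i)) (range_card m) (μ := μ) (M := M 0) (Q := Q 0) (A := A 0) (by
    rw [hN]
    exact hp 0)
  have h8 : 8 * ((2 - τ + τ : ℕ) : ℝ) * ((Q 0 : ℝ) + 2) = 16 * (Q 0 + 2) := by
    rw [hN]
    push_cast
    ring
  rw [h8] at hS
  have hPh : PG.Ph μ T Y = (XP.bdy T Y).ncard + μ * (Y.ncard / 3) := rfl
  rw [hPh] at hS
  have hcard : {i | m i ∉ X.R}.ncard ≤ τ := by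
    calc {i | m i ∉ X.R}.ncard ≤ (Set.univ : Set (Fin τ)).ncard := Set.ncard_le_ncard (Set.subset_univ _) (Set.toFinite _)
      _ = τ := by rw [Set.ncard_univ, Nat.card_fin]
  have hτ' : (τ : ℝ) ≤ 2 := by exact_mod_cast hτ
  have hc0 : (0 : ℝ) ≤ c := Nat.cast_nonneg c
  have hQ : (0 : ℝ) ≤ Q 0 := Nat.cast_nonneg _
  have h1 : ((τ : ℝ) + (1 - c)) ≤ 3 := by linarith
  have h2 : ((τ : ℝ) + (1 - c)) * (16 * (Q 0 + 2) + δ) ≤ 3 * (16 * (Q 0 + 2) + δ) := mul_le_mul_of_nonneg_right h1 (by positivity)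
  have h3 : ((τ : ℝ) + (1 - c)) * (16 * (Q 0 + 2)) ≤ 3 * (16 * (Q 0 + 2)) := mul_le_mul_of_nonneg_right h1 (by positivity)
  obtain ⟨f, -, hf, v', hv', hCh⟩ := chain hB hI hT hg hτ hp hδ hpr J c τ F _ X Set.univ hc hX hL hH hG hS hcard (by linarith)
  exact ⟨f, hf, v', by linarith, hCh⟩

end SYS.CE
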