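import Pool.Agent.SYS.CE.Br

/-!
# SYSS-CE-Run: the three outcomes of a block in a triangulation

PLAN.  `sc_typ`: `X.Typ l P F c`, `HL`: `f` is in the hole of some `e` in `l`; `typ_perm` brings `e` to the front, `typ_repl` replaces it by
`f`.  `run_node`: induction on `k` for a node `(w, Y, z)` of the run with `B.K ≤ w.length + k`: if `B.nxt X f Y = none` it is an end (`PE`);
otherwise `some d`, `d` in `Y.B` in the hole of `z` (`BIn.gate`), so the node is active with the gate `d` (`Act`, length less than `B.K` by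
`Blk.Ok.len`, contradiction for `k = 0`).  `br_typ`, `typ_repl`: `Y.Typ (d :: l) (p' :: P) F' c` with the same `l`; `Part.alt` (Lib/Alt;
`c < g` if `c = 0`, `l ≠ []` if `c = 1`): planar step: `br_snoc` and the induction; `NSt`: `NE` if `c = 0` (the region `Y.glue ..` of the
definition), `TE` if `c = 1`; `Sep`: `TE`; `Mrg`: `TE` if `c = 1`; if `c = 0` there is one hole (`l = []`, `HL`): contradiction.
`run_ex`: start with `w = []`.
-/

namespace SYS.CE

open Classical SST SYS.CH SYS.Part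

theorem sc_typ {D : Type} [Finite D] {c F : ℕ} {X : Part D} (h : Sc c X F) {f : D} (hf : f ∈ X.B) :
    ∃ l P, X.Typ (f :: l) (X.per f :: P) F c ∧ l.length = c := by
  obtain ⟨-, l, P, hT, hl⟩ := h
  obtain ⟨e, he, hs⟩ := hT.hl.2.2 f hf
  obtain ⟨l1, l2, rfl⟩ := List.append_of_mem he
  have h1 : (l1 ++ e :: l2).Perm (e :: (l1 ++ l2)) := List.perm_middle
  have h2 := typ_perm hT h1
  have h3 := typ_repl h2 hf hs
  refine ⟨l1 ++ l2, (l1 ++ l2).map X.per, ?_, ?_⟩
  · rw [← per_same X hs]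
    exact h3
  · rw [List.length_append, List.length_cons] at hl
    rw [List.length_append]
    omega

section
variable {n g : ℕ} {B : Blk} {M Q A : ℕ → ℕ} {T : Tri (Fin (6 * n))} {X : Part (Fin (6 * n))} {f : Fin (6 * n)} {c F : ℕ}

theorem run_node (hB : B.Ok) (hI : BIn B M Q A) (hg : 1 ≤ g) (hc : c ≤ 1) (hS : Sc c X F) (hT : T ∈ Trn n g) (hf : f ∈ X.B)
    (k : ℕ) : ∀ (w : List Stp) (Y : Part (Fin (6 * n))) (z : Fin (6 * n)), B.K ≤ w.length + k →
      BR (B.nxt X f) X f w Y z → Y.Le T → Y.HConn T →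
      (∃ X', PE B T X f X') ∨ (c = 0 ∧ ∃ X', NE B T X f X') ∨ TE B c T X f := by
  obtain ⟨l, P, hX, hl⟩ := sc_typ hS hf
  induction k with
  | zero =>
    intro w Y z hk hr hL hH
    cases hn : B.nxt X f Y with
    | none => exact Or.inl ⟨Y, w, z, ⟨hr, hn⟩, hL, hH⟩
    | some d =>
      obtain ⟨h1, h2⟩ := hI.gate X f w Y z d hf hr hn
      have h3 := hB.len X f (w, Y, z) d hf ⟨hr, hn, h1, h2⟩
      have h4 : w.length < B.K := h3
      omega
  | succ k ih =>
    intro w Y z hk hr hL hH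
    cases hn : B.nxt X f Y with
    | none => exact Or.inl ⟨Y, w, z, ⟨hr, hn⟩, hL, hH⟩
    | some d =>
      obtain ⟨h1, h2⟩ := hI.gate X f w Y z d hf hr hn
      have hact : Act B X f (w, Y, z) d := ⟨hr, hn, h1, h2⟩
      obtain ⟨p', F', hY⟩ := br_typ hX hr
      have hY' := typ_repl hY h1 h2
      have ho : c < g ∨ l ≠ [] := by
        rcases Nat.eq_zero_or_pos c with h0 | h0
        · left
          omega
        · right
          rintro rfl
          rw [List.length_nil] at hl
          omega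
      rcases alt hY' ⟨hT, hL⟩ hH ho with ⟨s, S', z', hst, hL', hH'⟩ | ⟨u, v, hns⟩ | hsep | hm
      · refine ih (w ++ [s]) S' z' ?_ (br_snoc hr hn h1 h2 hst) hL' hH'
        rw [List.length_append, List.length_singleton]
        omega
      · rcases Nat.eq_zero_or_pos c with h0 | h0
        · refine Or.inr (Or.inl ⟨h0, ?_⟩)
          obtain ⟨-, -, -, hx, hy, -⟩ := id hns
          exact ⟨_, w, Y, z, d, hact, hL, hH, u, v, hx, hy, hns, rfl⟩
        · refine Or.inr (Or.inr ⟨w, Y, z, d, hact, hL, hH, Or.inr ⟨by omega, Or.inl ⟨u, v, hns⟩⟩⟩)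
      · exact Or.inr (Or.inr ⟨w, Y, z, d, hact, hL, hH, Or.inl hsep⟩)
      · rcases Nat.eq_zero_or_pos c with h0 | h0
        · exfalso
          have hl0 : l = [] := List.length_eq_zero_iff.1 (by omega)
          subst hl0
          obtain ⟨e, he, hse⟩ := hY'.hl.2.2 (T.a d) hm.1
          rw [List.mem_singleton] at he
          subst he
          exact hm.2 hse
        · exact Or.inr (Or.inr ⟨w, Y, z, d, hact, hL, hH, Or.inr ⟨by omega, Or.inr hm⟩⟩)

theorem run_ex (hB : B.Ok) (hI : BIn B M Q A) (hg : 1 ≤ g) (hc : c ≤ 1) (hS : Sc c X F) (hT : T ∈ Trn n g) (hL : X.Le T)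
    (hH : X.HConn T) (hf : f ∈ X.B) :
    (∃ X', PE B T X f X') ∨ (c = 0 ∧ ∃ X', NE B T X f X') ∨ TE B c T X f := by
  exact run_node hB hI hg hc hS hT hf B.K [] X f (by simp) ⟨rfl, rfl⟩ hL hH

end

end SYS.CE
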